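import Pool.Agent.Helper1.UQ.St2

/-!
# Project UQ: module BND (bounds, monotonicity and infinite volume limits)
-/

set_option autoImplicit false

open Finset

namespace Pool.Agent.Helper62.UQ

open Classical Pool.Agent.Helper30.RCU Pool.Agent.Helper1.UQ

universe u

variable {V : Type u} {G : SimpleGraph V}

private theorem oe_nonneg {ι : Type u} (e : ι) (ω : Finset ι) : 0 ≤ oe e ω := by
  unfold oe
  split_ifs <;> norm_num

private theorem oe_le_one {ι : Type u} (e : ι) (ω : Finset ι) : oe e ω ≤ 1 := by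
  unfold oe
  split_ifs <;> norm_num

private theorem oe_mono {ι : Type u} (e : ι) : Monotone (oe e) := by
  intro ω ω' h
  unfold oe
  split_ifs with h1 h2 h2
  · exact le_rfl
  · exact absurd (h h1) h2
  · norm_num
  · exact le_rfl

private theorem oe_insert {ι : Type u} (i : DecidableEq ι) {e e' : ι} (h : e ≠ e')
    (ω : Finset ι) : oe e (@Insert.insert _ _ (@Finset.instInsert _ i) e' ω) = oe e ω := by
  have : e ∈ @Insert.insert _ _ (@Finset.instInsert _ i) e' ω ↔ e ∈ ω := by
    rw [mem_insert_any]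
    exact ⟨fun h1 => h1.resolve_left h, Or.inr⟩
  unfold oe
  by_cases h1 : e ∈ ω
  · rw [if_pos h1, if_pos (this.mpr h1)]
  · rw [if_neg h1, if_neg fun h2 => h1 (this.mp h2)]

private theorem disjSum_sub {A A' : Finset G.edgeSet} {U U' : Finset V} (h : A ⊆ A')
    (h' : U ⊆ U') : A.disjSum U ⊆ A'.disjSum U' := by
  intro x hx
  rcases Finset.mem_disjSum.mp hx with ⟨a, ha, rfl⟩ | ⟨a, ha, rfl⟩
  · exact Finset.inl_mem_disjSum.mpr (h ha)
  · exact Finset.inr_mem_disjSum.mpr (h' ha)

/-- an edge with both ends outside `I` is a loop -/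
private theorem loop_pI {I : Finset V} {e : G.edgeSet} (h : ∀ v ∈ (e : Sym2 V), v ∉ I) :
    pI G I (Sum.inl e) = s(none, none) := by
  obtain ⟨e, he⟩ := e
  induction e using Sym2.ind with
  | _ a b =>
    have ha : a ∉ I := h a (Sym2.mem_mk_left a b)
    have hb : b ∉ I := h b (Sym2.mem_mk_right a b)
    unfold pI cm ph
    simp only [Sum.elim_inl, Sym2.map_mk]
    rw [sg_some_of_notMem ha, sg_some_of_notMem hb]

/-- BND. Bounds, monotonicity and infinite volume limits. -/
theorem hBND (hMDW : StMDW.{u}) (hCTR : StCTR.{u}) (hRKM : StRKM.{u}) : StBND.{u} := by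
  intro V G hlf p t q hp0 hp1 ht0 ht1 hq
  have pr0 : ∀ e : GE G, 0 ≤ pr G p 0 e := pr_nonneg hp0 le_rfl
  have pr1 : ∀ e : GE G, pr G p 0 e ≤ 1 := pr_le_one hp1 zero_le_one
  have pt0 : ∀ e : GE G, 0 ≤ pr G p t e := pr_nonneg hp0 ht0
  have pt1 : ∀ e : GE G, pr G p t e ≤ 1 := pr_le_one hp1 ht1
  -- bounds
  have hf0 : ∀ (I : Finset V) (e : G.edgeSet), 0 ≤ fI G p q I e := fun I e =>
    ex_nonneg pr0 pr1 hq _ (oe_nonneg _)
  have hw1 : ∀ (I : Finset V) (e : G.edgeSet), wI G p q I e ≤ 1 := by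
    intro I e
    have h := ex_le (φ := pI G I) pr0 pr1 hq ((insert e (te G I)).disjSum ∅)
      (oe_le_one (Sum.inl e : GE G))
    rw [ex_const pr0 pr1 hq] at h
    exact h
  have hh0 : ∀ (I : Finset V) (e : G.edgeSet), 0 ≤ hI G p t q I e := fun I e =>
    ex_nonneg pt0 pt1 hq _ (oe_nonneg _)
  have hh1 : ∀ (I : Finset V) (e : G.edgeSet), hI G p t q I e ≤ 1 := by
    intro I e
    have h := ex_le (φ := pI G I) pt0 pt1 hq ((insert e (te G I)).disjSum I)
      (oe_le_one (Sum.inl e : GE G))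
    rw [ex_const pt0 pt1 hq] at h
    exact h
  have hwh : ∀ (I : Finset V) (e : G.edgeSet), wI G p q I e ≤ hI G p t q I e := by
    intro I e
    have h1 : wI G p q I e = ex (pI G I) (pr G p t) q ((insert e (te G I)).disjSum ∅)
        (oe (Sum.inl e)) := by
      unfold Pool.Agent.Helper1.UQ.wI eD
      refine ex_congr_p (fun x hx => ?_) _
      rcases Finset.mem_disjSum.mp hx with ⟨a, ha, rfl⟩ | ⟨a, ha, rfl⟩
      · rfl
      · exact absurd ha (Finset.notMem_empty _)
    rw [h1]
    exact ex_mono_set pt0 pt1 hq (disjSum_sub (Finset.Subset.refl _) (Finset.empty_subset _))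
      (oe_nonneg _) (oe_mono _)
  -- monotonicity
  have hfm : ∀ (I I' : Finset V) (e : G.edgeSet), I ⊆ I' → fI G p q I e ≤ fI G p q I' e :=
    fun I I' e h => ex_mono_set pr0 pr1 hq
      (disjSum_sub (te_mono hlf h) (Finset.Subset.refl _)) (oe_nonneg _) (oe_mono _)
  have hA : ∀ (I I' : Finset V) (e : G.edgeSet), I ⊆ I' →
      insert e (te G I) ⊆ insert e (te G I') := fun I I' e h =>
    Finset.insert_subset_insert _ (te_mono hlf h)
  have hA2 : ∀ (I I' : Finset V) (e : G.edgeSet), ∀ e' ∈ insert e (te G I'),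
      e' ∉ insert e (te G I) → ∀ v ∈ (e' : Sym2 V), v ∉ I := by
    intro I I' e e' _ he' v hv hvI
    exact he' (Finset.mem_insert_of_mem ((mem_te hlf).mpr ⟨v, hv, hvI⟩))
  have hA3 : ∀ (I I' : Finset V) (e : G.edgeSet), ∀ e' ∈ insert e (te G I'),
      e' ∉ insert e (te G I) → ∀ ω : Finset (GE G),
      oe (Sum.inl e : GE G) (insert (Sum.inl e') ω) = oe (Sum.inl e) ω := by
    intro I I' e e' _ he' ω
    refine oe_insert _ (fun h => he' ?_) ω
    rw [← Sum.inl_injective h]
    exact Finset.mem_insert_self _ _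
  have hwm : ∀ (I I' : Finset V) (e : G.edgeSet), I ⊆ I' → wI G p q I' e ≤ wI G p q I e := by
    intro I I' e h
    exact hMDW V G p 0 q hp0 hp1 le_rfl zero_le_one hq I I' _ _ ∅ ∅ h (hA I I' e h)
      (hA2 I I' e) (Finset.Subset.refl _) (fun v hv => absurd hv (Finset.notMem_empty _)) _
      (oe_nonneg _) (oe_mono _) (hA3 I I' e) (fun v hv => absurd hv (Finset.notMem_empty _))
  have hhm : ∀ (I I' : Finset V) (e : G.edgeSet), I ⊆ I' →
      hI G p t q I' e ≤ hI G p t q I e := by
    intro I I' e h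
    exact hMDW V G p t q hp0 hp1 ht0 ht1 hq I I' _ _ I I' h (hA I I' e h)
      (hA2 I I' e) h (fun v _ hv => hv) _
      (oe_nonneg _) (oe_mono _) (hA3 I I' e) (fun v _ _ ω => oe_insert _ (fun h => Sum.inl_ne_inr h) ω)
  have hfw0 : ∀ (I : Finset V) (e : G.edgeSet), fI G p q I e ≤ wI G p q I e := by
    intro I e
    refine (hCTR _ _ _ (ph G) (sg I) (pr G p 0) q pr0 pr1 hq _ _ (oe_nonneg _)
      (oe_mono _)).trans ?_
    exact ex_mono_set pr0 pr1 hq (disjSum_sub (Finset.subset_insert _ _)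
      (Finset.Subset.refl _)) (oe_nonneg _) (oe_mono _)
  have hfw : ∀ (I I' : Finset V) (e : G.edgeSet), fI G p q I e ≤ wI G p q I' e := by
    intro I I' e
    exact (hfm I (I ∪ I') e Finset.subset_union_left).trans
      ((hfw0 _ e).trans (hwm I' (I ∪ I') e Finset.subset_union_right))
  -- the connection probability
  have hth : ∀ (I I' : Finset V) (x : V), I ⊆ I' → x ∈ I → th G p q I' x ≤ th G p q I x := by
    intro I I' x h hx
    have h1 : ∀ ω : Finset (GE G), ind (pI G I') (some x) none ω ≤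
        ind (pI G I) (some x) none ω := by
      intro ω
      unfold ind
      split_ifs with h2 h3 h3
      · exact le_rfl
      · exfalso
        apply h3
        have h4 := (hRKM _ _ _ (pI G I') (sg I)).2.2 (ω : Set (GE G)) (some x) none h2
        rw [cm_pI h, sg_some_of_mem hx, sg_none] at h4
        exact h4
      · norm_num
      · exact le_rfl
    unfold th
    refine le_trans (b := eD G p 0 q I' (te G I') ∅ (ind (pI G I) (some x) none)) ?_ ?_
    · exact ex_le pr0 pr1 hq _ h1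
    · refine hMDW V G p 0 q hp0 hp1 le_rfl zero_le_one hq I I' _ _ ∅ ∅ h (te_mono hlf h)
        (fun e' _ he' v hv hvI => he' ((mem_te hlf).mpr ⟨v, hv, hvI⟩))
        (Finset.Subset.refl _) (fun v hv => absurd hv (Finset.notMem_empty _)) _
        (ind_nonneg _ _) (ind_mono _ _) (fun e' _ he' ω => ?_)
        (fun v hv => absurd hv (Finset.notMem_empty _))
      have hl : pI G I (Sum.inl e') = s(none, none) :=
        loop_pI fun v hv hvI => he' ((mem_te hlf).mpr ⟨v, hv, hvI⟩)
      have hc : Conn (pI G I) ((insert (Sum.inl e') ω : Finset (GE G)) : Set (GE G)) (some x) none ↔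
          Conn (pI G I) (ω : Set (GE G)) (some x) none := by
        rw [Finset.coe_insert, conn_insert hl]
        constructor
        · rintro (h3 | ⟨h3, -⟩ | ⟨h3, -⟩)
          · exact h3
          · exact h3
          · exact h3
        · exact Or.inl
      unfold ind
      simp only [hc]
  refine ⟨fun I e => ⟨hf0 I e, hw1 I e, hh0 I e, hh1 I e, hwh I e⟩, hfw,
    fun I I' e h => ⟨hwm I I' e h, hhm I I' e h, hfm I I' e h⟩, hth, ?_⟩
  intro e
  have b1 : BddAbove (Set.range fun I : Finset V => fI G p q I e) :=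
    ⟨1, by rintro _ ⟨I, rfl⟩; exact (hfw0 I e).trans (hw1 I e)⟩
  have b2 : BddBelow (Set.range fun I : Finset V => wI G p q I e) :=
    ⟨0, by rintro _ ⟨I, rfl⟩; exact (hf0 I e).trans (hfw0 I e)⟩
  have b3 : BddBelow (Set.range fun I : Finset V => hI G p t q I e) :=
    ⟨0, by rintro _ ⟨I, rfl⟩; exact hh0 I e⟩
  have c1 : ∀ I, fI G p q I e ≤ f8 G p q e := fun I => le_ciSup b1 I
  have c2 : ∀ I, w8 G p q e ≤ wI G p q I e := fun I => ciInf_le b2 I
  have c3 : ∀ I, h8 G p t q e ≤ hI G p t q I e := fun I => ciInf_le b3 I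
  refine ⟨c1, c2, c3, (hf0 ∅ e).trans (c1 ∅), ciSup_le fun I => le_ciInf fun I' => hfw I I' e,
    (c2 ∅).trans (hw1 ∅ e), le_ciInf fun I => hh0 I e, (c3 ∅).trans (hh1 ∅ e), ?_⟩
  intro ε hε
  obtain ⟨I1, h1⟩ : ∃ I, wI G p q I e < w8 G p q e + ε := by
    refine exists_lt_of_ciInf_lt ?_
    change w8 G p q e < _
    linarith only [hε]
  obtain ⟨I2, h2⟩ : ∃ I, hI G p t q I e < h8 G p t q e + ε := by
    refine exists_lt_of_ciInf_lt ?_
    change h8 G p t q e < _
    linarith only [hε]
  obtain ⟨I3, h3⟩ : ∃ I, f8 G p q e - ε < fI G p q I e := by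
    refine exists_lt_of_lt_ciSup ?_
    change _ < f8 G p q e
    linarith only [hε]
  refine ⟨I1 ∪ (I2 ∪ I3), fun I hI => ⟨?_, ?_, ?_⟩⟩
  · exact (hwm I1 I e (Finset.subset_union_left.trans hI)).trans h1.le
  · exact (hhm I2 I e ((Finset.subset_union_left.trans Finset.subset_union_right).trans hI)).trans
      h2.le
  · exact h3.le.trans
      (hfm I3 I e ((Finset.subset_union_right.trans Finset.subset_union_right).trans hI))

end Pool.Agent.Helper62.UQ
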