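import Pool.Agent.Helper1.UQ.St1

/-!
# Project UQ: module LEA (comparison at a leaf)
-/

set_option autoImplicit false

open Finset

namespace Pool.Agent.Helper62.UQ

open Classical Pool.Agent.Helper30.RCU Pool.Agent.Helper1.UQ

universe u

variable {V ι : Type u} {φ : ι → Sym2 V} {p p' : ι → ℝ} {q : ℝ}

private theorem nt_nonneg (T ω : Finset ι) : 0 ≤ nt T ω := by
  unfold nt
  split_ifs <;> norm_num

private theorem nt_le_one (T ω : Finset ι) : nt T ω ≤ 1 := by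
  unfold nt
  split_ifs <;> norm_num

private theorem nt_anti (T : Finset ι) : Antitone (nt T) := by
  intro ω ω' h
  unfold nt
  split_ifs with h1 h2 h2
  · exact le_rfl
  · exact absurd (Finset.disjoint_of_subset_left h h1) h2
  · norm_num
  · exact le_rfl

/-- an antitone bounded function has smaller expectation for larger probabilities -/
private theorem ex_anti (hPMO : StPMO.{u}) (hp'0 : ∀ e, 0 ≤ p' e) (hpp : ∀ e, p' e ≤ p e)
    (hp1 : ∀ e, p e ≤ 1) (hq : 1 ≤ q) (E : Finset ι) (hE : ∀ e ∈ E, 0 < p' e ∧ p e < 1)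
    {f : Finset ι → ℝ} (hf : Antitone f) : ex φ p q E f ≤ ex φ p' q E f := by
  have h := hPMO V ι φ p p' q hp'0 hpp hp1 hq E hE (fun ω => f ∅ - f ω)
    (fun ω => sub_nonneg.mpr (hf (empty_subset ω)))
    (fun ω ω' h => by have := hf h; simp only; linarith)
  have hp0 : ∀ e, 0 ≤ p e := fun e => (hp'0 e).trans (hpp e)
  have hp'1 : ∀ e, p' e ≤ 1 := fun e => (hpp e).trans (hp1 e)
  rw [ex_sub, ex_sub, ex_const hp0 hp1 hq, ex_const hp'0 hp'1 hq] at h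
  linarith only [h]

private theorem tw_eq (hCLO : StCLO.{u}) (hp0 : ∀ e, 0 ≤ p e) (hp1 : ∀ e, p e ≤ 1) (hq : 1 ≤ q)
    {E T F : Finset ι} (g : V) (hE : ∀ e ∈ E, p e < 1) (hF : F ⊆ T) (hT : T ⊆ E) :
    TW φ p q E T F g g =
      (∏ e ∈ F, p e / 2 / (1 - p e)) * cl φ p q E T * ex φ p q (E \ T) (ps φ (2 / q) F) := by
  have h1 := ((hCLO V ι φ p q hp0 hp1 hq E T hT).2).1
  have hZ := S_one_pos (φ := φ) hp0 hp1 hq E
  have hB := S_one_pos (φ := φ) hp0 hp1 hq (E \ T)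
  have hind : (fun ω => ps φ (2 / q) F ω * ind φ g g ω) = ps φ (2 / q) F := by
    funext ω
    have : ind φ g g ω = 1 := by
      unfold ind
      rw [if_pos (Conn.refl _ _)]
    rw [this, mul_one]
  have hFne : (∏ e ∈ F, (1 - p e)) ≠ 0 := by
    refine Finset.prod_ne_zero_iff.mpr fun e he => ?_
    have := hE e (hT (hF he))
    exact (sub_pos.mpr this).ne'
  have hprod : ∏ e ∈ T, (1 - p e) = (∏ e ∈ T \ F, (1 - p e)) * ∏ e ∈ F, (1 - p e) :=
    (Finset.prod_sdiff hF).symm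
  have hcl : cl φ p q E T = (∏ e ∈ T, (1 - p e)) * S φ p q (E \ T) (fun _ => 1) /
      S φ p q E (fun _ => 1) := by
    rw [eq_div_iff hZ.ne']
    exact h1
  have hd : ∏ e ∈ F, p e / 2 / (1 - p e) = (∏ e ∈ F, p e / 2) / ∏ e ∈ F, (1 - p e) :=
    Finset.prod_div_distrib _ _
  unfold TW
  rw [hind, hcl, hprod, hd]
  unfold ex
  have hZ' := hZ.ne'
  have hB' := hB.ne'
  generalize (∏ e ∈ F, p e / 2) = x1 at *
  generalize (∏ e ∈ F, (1 - p e)) = x2 at *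
  generalize (∏ e ∈ T \ F, (1 - p e)) = x3 at *
  generalize S φ p q (E \ T) (ps φ (2 / q) F) = x4 at *
  generalize S φ p q (E \ T) (fun _ => 1) = x5 at *
  generalize S φ p q E (fun _ => 1) = x6 at *
  field_simp

/-- LEA (comparison at a leaf). -/
theorem hLEA (hPSI : StPSI.{u}) (hCLO : StCLO.{u}) (hPMO : StPMO.{u}) : StLEA.{u} := by
  intro V ι φ p p' q hp'0 hpp hp1 hq hq2 E T F T1 g hE hF hT hT1
  have hp0 : ∀ e, 0 ≤ p e := fun e => (hp'0 e).trans (hpp e)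
  have hp'1 : ∀ e, p' e ≤ 1 := fun e => (hpp e).trans (hp1 e)
  have hlam : 1 ≤ 2 / q := by
    rw [le_div_iff₀ (by linarith only [hq])]
    linarith only [hq2]
  obtain ⟨ha, ha1, -, -⟩ := hPSI V ι φ (2 / q) hlam F
  rw [tw_eq hCLO hp0 hp1 hq g (fun e he => (hE e he).2) hF hT,
    tw_eq hCLO hp'0 hp'1 hq g (fun e he => (hpp e).trans_lt (hE e he).2) hF hT]
  have hex : ex φ p q (E \ T) (ps φ (2 / q) F) ≤ ex φ p' q (E \ T) (ps φ (2 / q) F) :=
    ex_anti hPMO hp'0 hpp hp1 hq _ (fun e he => hE e (Finset.mem_sdiff.mp he).1) ha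
  have hex0 : 0 ≤ ex φ p q (E \ T) (ps φ (2 / q) F) :=
    ex_nonneg hp0 hp1 hq _ fun ω => zero_le_one.trans (ha1 ω)
  have hcl : cl φ p q (E \ T1) (T \ T1) ≤ cl φ p' q (E \ T1) (T \ T1) :=
    ex_anti hPMO hp'0 hpp hp1 hq _ (fun e he => hE e (Finset.mem_sdiff.mp he).1) (nt_anti _)
  have hc1 : cl φ p q E T = cl φ p q E T1 * cl φ p q (E \ T1) (T \ T1) :=
    ((hCLO V ι φ p q hp0 hp1 hq E T hT).2).2 T1 hT1
  have hc2 : cl φ p' q E T = cl φ p' q E T1 * cl φ p' q (E \ T1) (T \ T1) :=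
    ((hCLO V ι φ p' q hp'0 hp'1 hq E T hT).2).2 T1 hT1
  have hcn1 : 0 ≤ cl φ p q E T1 := ex_nonneg hp0 hp1 hq _ fun ω => nt_nonneg _ _
  have hcn2 : 0 ≤ cl φ p' q E T1 := ex_nonneg hp'0 hp'1 hq _ fun ω => nt_nonneg _ _
  have hcn3 : 0 ≤ cl φ p q E T := ex_nonneg hp0 hp1 hq _ fun ω => nt_nonneg _ _
  have hcn4 : 0 ≤ cl φ p' q E T := ex_nonneg hp'0 hp'1 hq _ fun ω => nt_nonneg _ _
  have hkey : cl φ p q E T * cl φ p' q E T1 ≤ cl φ p q E T1 * cl φ p' q E T := by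
    rw [hc1, hc2]
    have := mul_le_mul_of_nonneg_left hcl (mul_nonneg hcn1 hcn2)
    linarith only [this]
  have hprod : (∏ e ∈ F, p e / 2 / (1 - p e)) =
      (∏ e ∈ F, p e * (1 - p' e) / (p' e * (1 - p e))) * ∏ e ∈ F, p' e / 2 / (1 - p' e) := by
    rw [← Finset.prod_mul_distrib]
    refine Finset.prod_congr rfl fun e he => ?_
    obtain ⟨h1, h2⟩ := hE e (hT (hF he))
    have h3 : 1 - p' e ≠ 0 := (sub_pos.mpr ((hpp e).trans_lt h2)).ne'
    have h4 : 1 - p e ≠ 0 := (sub_pos.mpr h2).ne'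
    have h5 : p' e ≠ 0 := h1.ne'
    field_simp
  have hP : 0 ≤ ∏ e ∈ F, p e / 2 / (1 - p e) :=
    Finset.prod_nonneg fun e _ =>
      div_nonneg (div_nonneg (hp0 e) zero_le_two) (sub_nonneg.mpr (hp1 e))
  have hmain : cl φ p q E T * cl φ p' q E T1 * ex φ p q (E \ T) (ps φ (2 / q) F) ≤
      cl φ p q E T1 * cl φ p' q E T * ex φ p' q (E \ T) (ps φ (2 / q) F) :=
    mul_le_mul hkey hex hex0 (mul_nonneg hcn1 hcn4)
  calc (∏ e ∈ F, p e / 2 / (1 - p e)) * cl φ p q E T * ex φ p q (E \ T) (ps φ (2 / q) F) *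
        cl φ p' q E T1
      = (∏ e ∈ F, p e / 2 / (1 - p e)) *
          (cl φ p q E T * cl φ p' q E T1 * ex φ p q (E \ T) (ps φ (2 / q) F)) := by ring
    _ ≤ (∏ e ∈ F, p e / 2 / (1 - p e)) *
          (cl φ p q E T1 * cl φ p' q E T * ex φ p' q (E \ T) (ps φ (2 / q) F)) :=
        mul_le_mul_of_nonneg_left hmain hP
    _ = _ := by
        rw [hprod]
        ring

end Pool.Agent.Helper62.UQ
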